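import Pool.Agent.H590.PL.Stm

/-!
# MP_85210c_gt, planar case: task K5
-/

set_option autoImplicit false

noncomputable section

open MeasureTheory Filter Topology Set

namespace H801PL

/-- the weight function `(1 + δ r)^(-κ)` is convex for `r ≥ 0` -/
theorem convex_weight {κ δ : ℝ} (hκ : 0 < κ) (hδ : 0 ≤ δ) :
    ConvexOn ℝ (Ici (0 : ℝ)) (fun r : ℝ => (1 + δ * r) ^ (-κ)) := by
  have hpos : ∀ r ∈ Ici (0 : ℝ), 0 < 1 + δ * r := by
    intro r hr
    have : 0 ≤ δ * r := mul_nonneg hδ hr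
    linarith
  have hlin : ∀ r : ℝ, HasDerivAt (fun r : ℝ => 1 + δ * r) δ r := by
    intro r
    simpa using ((hasDerivAt_id r).const_mul δ).const_add 1
  refine convexOn_of_hasDerivWithinAt2_nonneg (convex_Ici 0)
    (f' := fun r => -κ * δ * (1 + δ * r) ^ (-κ - 1))
    (f'' := fun r => -κ * δ * ((-κ - 1) * δ * (1 + δ * r) ^ (-κ - 1 - 1))) ?_ ?_ ?_ ?_
  · intro r hr
    exact ((hlin r).rpow_const (p := -κ) (Or.inl (hpos r hr).ne')).continuousAt.continuousWithinAt
  · intro r hr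
    have hr' : r ∈ Ici (0 : ℝ) := interior_subset hr
    have h := (hlin r).rpow_const (p := -κ) (Or.inl (hpos r hr').ne')
    have e : δ * -κ * (1 + δ * r) ^ (-κ - 1) = -κ * δ * (1 + δ * r) ^ (-κ - 1) := by ring
    rw [e] at h
    exact h.hasDerivWithinAt
  · intro r hr
    have hr' : r ∈ Ici (0 : ℝ) := interior_subset hr
    have h := ((hlin r).rpow_const (p := -κ - 1) (Or.inl (hpos r hr').ne')).const_mul (-κ * δ)
    have e : -κ * δ * (δ * (-κ - 1) * (1 + δ * r) ^ (-κ - 1 - 1)) =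
        -κ * δ * ((-κ - 1) * δ * (1 + δ * r) ^ (-κ - 1 - 1)) := by ring
    rw [e] at h
    exact h.hasDerivWithinAt
  · intro r hr
    have hr' : r ∈ Ici (0 : ℝ) := interior_subset hr
    have h1 : 0 ≤ (1 + δ * r) ^ (-κ - 1 - 1) := Real.rpow_nonneg (hpos r hr').le _
    have e : -κ * δ * ((-κ - 1) * δ * (1 + δ * r) ^ (-κ - 1 - 1)) =
        κ * (κ + 1) * (δ * δ) * (1 + δ * r) ^ (-κ - 1 - 1) := by ring
    show 0 ≤ -κ * δ * ((-κ - 1) * δ * (1 + δ * r) ^ (-κ - 1 - 1))
    rw [e]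
    positivity

/-- chord of a convex function -/
theorem chord {G : ℝ → ℝ} (hG : ConvexOn ℝ (Ici (0 : ℝ)) G) {r2 r1 : ℝ} (h0 : 0 ≤ r2)
    (h : r2 < r1) : ∃ A B : ℝ, (∀ r, r2 ≤ r → r ≤ r1 → G r ≤ A + B * r) ∧
      ∀ r, 0 ≤ r → (r ≤ r2 ∨ r1 ≤ r) → A + B * r ≤ G r := by
  set B : ℝ := (G r1 - G r2) / (r1 - r2) with hB
  have hd : 0 < r1 - r2 := by linarith
  have hB' : B * (r1 - r2) = G r1 - G r2 := by rw [hB]; field_simp
  have h1 : r1 ∈ Ici (0 : ℝ) := h0.trans h.le
  have h2 : r2 ∈ Ici (0 : ℝ) := h0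
  refine ⟨G r2 - B * r2, B, ?_, ?_⟩
  · intro r hr2 hr1
    rcases eq_or_lt_of_le hr2 with rfl | hr2
    · linarith
    rcases eq_or_lt_of_le hr1 with rfl | hr1
    · linarith
    have hs := hG.slope_mono_adjacent h2 h1 hr2 hr1
    rw [div_le_div_iff₀ (by linarith) (by linarith)] at hs
    have e : (G r - G r2) * (r1 - r2) ≤ (B * (r - r2)) * (r1 - r2) := by
      have : (B * (r - r2)) * (r1 - r2) = (G r1 - G r2) * (r - r2) := by rw [← hB']; ring
      rw [this]
      nlinarith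
    have := le_of_mul_le_mul_right e hd
    linarith
  · intro r hr0 hr
    rcases hr with hr | hr
    · rcases eq_or_lt_of_le hr with rfl | hr
      · linarith
      have hs := hG.slope_mono_adjacent (show r ∈ Ici (0 : ℝ) from hr0) h1 hr h
      have e : (G r2 - G r) / (r2 - r) ≤ B := hs
      rw [div_le_iff₀ (by linarith)] at e
      linarith
    · rcases eq_or_lt_of_le hr with rfl | hr
      · linarith
      have hs := hG.slope_mono_adjacent h2 (show r ∈ Ici (0 : ℝ) from hr0) h hr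
      have e : B ≤ (G r - G r1) / (r - r1) := hs
      rw [le_div_iff₀ (by linarith)] at e
      linarith

/-! ### The model -/

theorem model_int {α β b m0 : ℝ} (hα : 0 ≤ α) (hβ : α + 1 < β) (hb : -b < m0) :
    IntegrableOn (fun l : ℝ => (l + b) ^ (-β) * (l - m0) ^ α) (Ioi m0) := by
  have h1 : IntegrableOn (fun l : ℝ => (l + b) ^ (α - β)) (Ioi m0) :=
    integrableOn_add_rpow_Ioi_of_lt (by linarith) hb
  refine Integrable.mono' h1 ?_ ?_
  · refine ContinuousOn.aestronglyMeasurable ?_ measurableSet_Ioi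
    intro l hl
    have hl' : m0 < l := hl
    refine ContinuousAt.continuousWithinAt ?_
    refine ContinuousAt.mul ?_ ?_
    · exact ContinuousAt.rpow_const (by fun_prop) (Or.inl (by linarith : (0:ℝ) < l + b).ne')
    · exact ContinuousAt.rpow_const (by fun_prop) (Or.inr hα)
  · refine (ae_restrict_iff' measurableSet_Ioi).2 (Eventually.of_forall fun l hl => ?_)
    have hl' : m0 < l := hl
    have hlb : 0 < l + b := by linarith
    have hlm : 0 ≤ l - m0 := by linarith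
    rw [Real.norm_eq_abs, abs_of_nonneg (mul_nonneg (Real.rpow_nonneg hlb.le _)
      (Real.rpow_nonneg hlm _))]
    have h2 : (l - m0) ^ α ≤ (l + b) ^ α := Real.rpow_le_rpow hlm (by linarith) hα
    calc (l + b) ^ (-β) * (l - m0) ^ α ≤ (l + b) ^ (-β) * (l + b) ^ α :=
          mul_le_mul_of_nonneg_left h2 (Real.rpow_nonneg hlb.le _)
      _ = (l + b) ^ (α - β) := by rw [← Real.rpow_add hlb]; congr 1; ring

theorem model_pos {α β b m0 : ℝ} (hα : 0 ≤ α) (hβ : α + 1 < β) (hb : -b < m0) :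
    0 < ∫ l in Ioi m0, (l + b) ^ (-β) * (l - m0) ^ α := by
  have hpt : ∀ l ∈ Ioi m0, 0 < (l + b) ^ (-β) * (l - m0) ^ α := by
    intro l hl
    have hl' : m0 < l := hl
    exact mul_pos (Real.rpow_pos_of_pos (by linarith) _) (Real.rpow_pos_of_pos (by linarith) _)
  rw [setIntegral_pos_iff_support_of_nonneg_ae
    ((ae_restrict_iff' measurableSet_Ioi).2 (Eventually.of_forall fun l hl => (hpt l hl).le))
    (model_int hα hβ hb)]
  have : Function.support (fun l : ℝ => (l + b) ^ (-β) * (l - m0) ^ α) ∩ Ioi m0 = Ioi m0 := by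
    ext l
    simp only [mem_inter_iff, Function.mem_support]
    exact ⟨fun h => h.2, fun h => ⟨(hpt l h).ne', h⟩⟩
  rw [this, Real.volume_Ioi]
  exact ENNReal.zero_lt_top

theorem model_ftc {α κ b m0 : ℝ} (hα : 0 < α) (hκ : κ = 2 * α + 1) (hb : -b < m0) :
    κ * (b + m0) * ∫ l in Ioi m0, (l + b) ^ (-(κ + 1)) * (l - m0) ^ α =
      α * ∫ l in Ioi m0, (l + b) ^ (-κ) * (l - m0) ^ α := by
  have i1 := model_int (α := α) (β := κ) hα.le (by linarith) hb
  have i2 := model_int (α := α) (β := κ + 1) hα.le (by linarith) hb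
  have key : ∫ l in Ioi m0, (κ * (b + m0) * ((l + b) ^ (-(κ + 1)) * (l - m0) ^ α) -
      α * ((l + b) ^ (-κ) * (l - m0) ^ α)) = 0 - (m0 + b) ^ (-κ) * (m0 - m0) ^ (α + 1) := by
    refine integral_Ioi_of_hasDerivAt_of_tendsto
      (f := fun l : ℝ => (l + b) ^ (-κ) * (l - m0) ^ (α + 1)) ?_ ?_ ?_ ?_
    · refine ContinuousAt.continuousWithinAt ?_
      refine ContinuousAt.mul ?_ ?_
      · exact ContinuousAt.rpow_const (by fun_prop) (Or.inl (by linarith : (0:ℝ) < m0 + b).ne')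
      · exact ContinuousAt.rpow_const (by fun_prop) (Or.inr (by linarith))
    · intro l hl
      have hl' : m0 < l := hl
      have hlb : 0 < l + b := by linarith
      have hlm : 0 < l - m0 := by linarith
      have d1 : HasDerivAt (fun l : ℝ => (l + b) ^ (-κ)) (1 * -κ * (l + b) ^ (-κ - 1)) l :=
        ((hasDerivAt_id l).add_const b).rpow_const (Or.inl hlb.ne')
      have d2 : HasDerivAt (fun l : ℝ => (l - m0) ^ (α + 1)) (1 * (α + 1) * (l - m0) ^ (α + 1 - 1)) l :=
        ((hasDerivAt_id l).sub_const m0).rpow_const (Or.inl hlm.ne')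
      have d := d1.mul d2
      have e : (κ * (b + m0) * ((l + b) ^ (-(κ + 1)) * (l - m0) ^ α) -
          α * ((l + b) ^ (-κ) * (l - m0) ^ α)) =
          1 * -κ * (l + b) ^ (-κ - 1) * (l - m0) ^ (α + 1) +
            (l + b) ^ (-κ) * (1 * (α + 1) * (l - m0) ^ (α + 1 - 1)) := by
        have e1 : (l + b) ^ (-κ) = (l + b) * (l + b) ^ (-(κ + 1)) := by
          conv_rhs => rw [← Real.rpow_one (l + b), ← Real.rpow_mul hlb.le, one_mul,
            ← Real.rpow_add hlb]
          congr 1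
          ring
        have e2 : (l - m0) ^ (α + 1) = (l - m0) * (l - m0) ^ α := by
          rw [Real.rpow_add hlm, Real.rpow_one, mul_comm]
        have e3 : α + 1 - 1 = α := by ring
        have e4 : -κ - 1 = -(κ + 1) := by ring
        rw [e3, e4, e2, e1, hκ]
        ring
      rw [e]
      exact d
    · exact (i2.const_mul _).sub (i1.const_mul _)
    · have h1 : Tendsto (fun l : ℝ => (l + b) ^ (-α)) atTop (𝓝 0) :=
        (tendsto_rpow_neg_atTop hα).comp (tendsto_atTop_add_const_right _ b tendsto_id)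
      refine tendsto_of_tendsto_of_tendsto_of_le_of_le' tendsto_const_nhds h1 ?_ ?_
      · filter_upwards [eventually_gt_atTop m0] with l hl
        exact mul_nonneg (Real.rpow_nonneg (by linarith) _) (Real.rpow_nonneg (by linarith) _)
      · filter_upwards [eventually_gt_atTop m0] with l hl
        have hlb : 0 < l + b := by linarith
        calc (l + b) ^ (-κ) * (l - m0) ^ (α + 1) ≤ (l + b) ^ (-κ) * (l + b) ^ (α + 1) :=
              mul_le_mul_of_nonneg_left (Real.rpow_le_rpow (by linarith) (by linarith)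
                (by linarith)) (Real.rpow_nonneg hlb.le _)
          _ = (l + b) ^ (-α) := by
              rw [← Real.rpow_add hlb]
              congr 1
              rw [hκ]
              ring
  rw [sub_self, Real.zero_rpow (by linarith), mul_zero, sub_zero,
    integral_sub (i2.const_mul _) (i1.const_mul _), integral_const_mul, integral_const_mul] at key
  linarith

theorem model_scale0 {α κ b m0 : ℝ} (hκ : κ = 2 * α + 1) (hb : -b < m0) :
    ∫ l in Ioi m0, (l + b) ^ (-κ) * (l - m0) ^ α =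
      (b + m0) ^ (-α) * ∫ t in Ioi (0 : ℝ), (t + 1) ^ (-κ) * t ^ α := by
  have hu : 0 < b + m0 := by linarith
  have h1 : ∫ l in Ioi m0, (l + b) ^ (-κ) * (l - m0) ^ α =
      ∫ x in Ioi (0 : ℝ), (x + (b + m0)) ^ (-κ) * x ^ α := by
    have h2 := (measurePreserving_add_right (volume : Measure ℝ) m0).setIntegral_preimage_emb
      (measurableEmbedding_addRight m0) (fun l : ℝ => (l + b) ^ (-κ) * (l - m0) ^ α) (Ioi m0)
    rw [← h2]
    have h3 : (fun x : ℝ => x + m0) ⁻¹' Ioi m0 = Ioi 0 := by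
      ext x
      simp
    rw [h3]
    refine setIntegral_congr_fun measurableSet_Ioi (fun x _ => ?_)
    show (x + m0 + b) ^ (-κ) * (x + m0 - m0) ^ α = (x + (b + m0)) ^ (-κ) * x ^ α
    congr 2 <;> ring
  have h4 := integral_comp_mul_left_Ioi (fun x : ℝ => (x + (b + m0)) ^ (-κ) * x ^ α) 0 hu
  rw [mul_zero, smul_eq_mul] at h4
  have h5 : ∫ t in Ioi (0 : ℝ), ((b + m0) * t + (b + m0)) ^ (-κ) * ((b + m0) * t) ^ α =
      (b + m0) ^ (α - κ) * ∫ t in Ioi (0 : ℝ), (t + 1) ^ (-κ) * t ^ α := by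
    rw [← integral_const_mul]
    refine setIntegral_congr_fun measurableSet_Ioi (fun t ht => ?_)
    have ht' : 0 < t := ht
    show ((b + m0) * t + (b + m0)) ^ (-κ) * ((b + m0) * t) ^ α =
      (b + m0) ^ (α - κ) * ((t + 1) ^ (-κ) * t ^ α)
    have e1 : (b + m0) * t + (b + m0) = (b + m0) * (t + 1) := by ring
    rw [e1, Real.mul_rpow hu.le (by linarith), Real.mul_rpow hu.le ht'.le, sub_eq_add_neg,
      Real.rpow_add hu]
    ring
  rw [h5] at h4
  rw [h1]
  have h6 : ∫ x in Ioi (0 : ℝ), (x + (b + m0)) ^ (-κ) * x ^ α = (b + m0) *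
      ((b + m0) ^ (α - κ) * ∫ t in Ioi (0 : ℝ), (t + 1) ^ (-κ) * t ^ α) := by
    rw [h4]
    field_simp
  rw [h6, ← mul_assoc]
  congr 1
  have e : -α = 1 + (α - κ) := by rw [hκ]; ring
  rw [e, Real.rpow_add hu, Real.rpow_one]

/-! ### The crossing argument -/

/-- density of the given function -/
def F1 (κ α b l0 : ℝ) (om : ℝ → ℝ) : ℝ → ℝ :=
  (Ioi l0).indicator (fun l => (l + b) ^ (-κ) * om l ^ α)

/-- density of the model -/
def F0 (κ α b m0 C : ℝ) : ℝ → ℝ :=
  (Ioi m0).indicator (fun l => (l + b) ^ (-κ) * (C * (l - m0) ^ α))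

theorem F0_nonneg {κ α b m0 C : ℝ} (hb : -b < m0) (hC : 0 < C) (l : ℝ) : 0 ≤ F0 κ α b m0 C l := by
  unfold F0
  refine indicator_nonneg (fun x hx => ?_) l
  have hx' : m0 < x := hx
  exact mul_nonneg (Real.rpow_nonneg (by linarith) _)
    (mul_nonneg hC.le (Real.rpow_nonneg (by linarith) _))

theorem crossing {α κ l0 b δ m0 C : ℝ} {om : ℝ → ℝ} (hα : 0 < α) (hκ : 0 < κ) (hl0 : 0 ≤ l0)
    (hb : 0 < b) (hδ : 0 ≤ δ) (hm0 : -b < m0) (hC : 0 < C) (hconc : ConcaveOn ℝ (Ici l0) om)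
    (hom : ∀ l ∈ Ici l0, 0 ≤ om l) : ∃ A B : ℝ, ∀ᵐ l : ℝ,
      (F1 κ α b l0 om l - F0 κ α b m0 C l) *
        ((1 + δ * (l + b)⁻¹) ^ (-κ) - (A + B * (l + b)⁻¹)) ≤ 0 := by
  set c : ℝ := C ^ (1 / α) with hc
  have hc0 : 0 < c := Real.rpow_pos_of_pos hC _
  have hcα : c ^ α = C := by
    rw [hc, ← Real.rpow_mul hC.le, one_div, inv_mul_cancel₀ hα.ne', Real.rpow_one]
  set S : Set ℝ := {l ∈ Ici l0 | 0 ≤ om l - c * max (l - m0) 0} with hS
  have hScv : Convex ℝ S := by
    have h1 : ConvexOn ℝ (Ici l0) (fun l : ℝ => c * max (l - m0) 0) := by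
      refine ⟨convex_Ici l0, fun x _ y _ s t hs ht hst => ?_⟩
      simp only [smul_eq_mul]
      have e : s * x + t * y - m0 = s * (x - m0) + t * (y - m0) := by
        have : m0 = (s + t) * m0 := by rw [hst, one_mul]
        linear_combination -this
      have h2 : max (s * x + t * y - m0) 0 ≤ s * max (x - m0) 0 + t * max (y - m0) 0 := by
        refine max_le ?_ ?_
        · rw [e]
          exact add_le_add (mul_le_mul_of_nonneg_left (le_max_left _ _) hs)
            (mul_le_mul_of_nonneg_left (le_max_left _ _) ht)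
        · exact add_nonneg (mul_nonneg hs (le_max_right _ _)) (mul_nonneg ht (le_max_right _ _))
      calc c * max (s * x + t * y - m0) 0 ≤ c * (s * max (x - m0) 0 + t * max (y - m0) 0) :=
            mul_le_mul_of_nonneg_left h2 hc0.le
        _ = s * (c * max (x - m0) 0) + t * (c * max (y - m0) 0) := by ring
    exact (hconc.sub h1).convex_ge 0
  have hord : S.OrdConnected := hScv.ordConnected
  -- signs of the difference
  have pa : ∀ l, l0 < l → l ∈ S → 0 ≤ F1 κ α b l0 om l - F0 κ α b m0 C l := by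
    intro l hl hlS
    have hlb : 0 < l + b := by linarith
    have e1 : F1 κ α b l0 om l = (l + b) ^ (-κ) * om l ^ α :=
      indicator_of_mem (show l ∈ Ioi l0 from hl) _
    have hk : 0 ≤ (l + b) ^ (-κ) := Real.rpow_nonneg hlb.le _
    rw [e1]
    by_cases hm : m0 < l
    · have e0 : F0 κ α b m0 C l = (l + b) ^ (-κ) * (C * (l - m0) ^ α) :=
        indicator_of_mem (show l ∈ Ioi m0 from hm) _
      rw [e0]
      have h2 : c * (l - m0) ≤ om l := by
        have h3 := hlS.2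
        rw [max_eq_left (by linarith)] at h3
        linarith
      have h4 : (c * (l - m0)) ^ α ≤ om l ^ α :=
        Real.rpow_le_rpow (mul_nonneg hc0.le (by linarith)) h2 hα.le
      rw [Real.mul_rpow hc0.le (by linarith), hcα] at h4
      have := mul_le_mul_of_nonneg_left h4 hk
      linarith
    · have e0 : F0 κ α b m0 C l = 0 := indicator_of_notMem (show l ∉ Ioi m0 from hm) _
      rw [e0, sub_zero]
      exact mul_nonneg hk (Real.rpow_nonneg (hom l hl.le) _)
  have pb : ∀ l, l0 < l → l ∉ S → F1 κ α b l0 om l - F0 κ α b m0 C l ≤ 0 := by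
    intro l hl hlS
    have hlb : 0 < l + b := by linarith
    have e1 : F1 κ α b l0 om l = (l + b) ^ (-κ) * om l ^ α :=
      indicator_of_mem (show l ∈ Ioi l0 from hl) _
    have hk : 0 ≤ (l + b) ^ (-κ) := Real.rpow_nonneg hlb.le _
    have hlt : om l < c * max (l - m0) 0 := by
      by_contra h
      exact hlS ⟨hl.le, by linarith⟩
    have hm : m0 < l := by
      by_contra h
      rw [max_eq_right (by linarith), mul_zero] at hlt
      exact absurd (hom l hl.le) (not_le.2 hlt)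
    have e0 : F0 κ α b m0 C l = (l + b) ^ (-κ) * (C * (l - m0) ^ α) :=
      indicator_of_mem (show l ∈ Ioi m0 from hm) _
    rw [e1, e0]
    rw [max_eq_left (by linarith)] at hlt
    have h4 : om l ^ α ≤ (c * (l - m0)) ^ α := Real.rpow_le_rpow (hom l hl.le) hlt.le hα.le
    rw [Real.mul_rpow hc0.le (by linarith), hcα] at h4
    have := mul_le_mul_of_nonneg_left h4 hk
    linarith
  have pc : ∀ l, l ≤ l0 → F1 κ α b l0 om l - F0 κ α b m0 C l ≤ 0 := by
    intro l hl
    have e1 : F1 κ α b l0 om l = 0 := indicator_of_notMem (show l ∉ Ioi l0 from not_lt.2 hl) _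
    rw [e1, zero_sub]
    exact neg_nonpos.2 (F0_nonneg hm0 hC l)
  have pd : ∀ l, l ≤ -b → F1 κ α b l0 om l - F0 κ α b m0 C l = 0 := by
    intro l hl
    have g1 : l ≤ l0 := by linarith
    have g2 : l ≤ m0 := by linarith
    have e1 : F1 κ α b l0 om l = 0 :=
      indicator_of_notMem (show l ∉ Ioi l0 from not_lt.2 g1) _
    have e0 : F0 κ α b m0 C l = 0 :=
      indicator_of_notMem (show l ∉ Ioi m0 from not_lt.2 g2) _
    rw [e1, e0, sub_zero]
  by_cases hsub : S.Subsingleton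
  · refine ⟨0, 0, ?_⟩
    have hnull : (volume : Measure ℝ) S = 0 := hsub.measure_zero _
    filter_upwards [measure_eq_zero_iff_ae_notMem.1 hnull] with l hl
    rcases le_or_gt l (-b) with h | h
    · rw [pd l h, zero_mul]
    · have hr : 0 ≤ (l + b)⁻¹ := inv_nonneg.2 (by linarith)
      have hG : 0 ≤ (1 + δ * (l + b)⁻¹) ^ (-κ) - (0 + 0 * (l + b)⁻¹) := by
        rw [zero_mul, add_zero, sub_zero]
        exact Real.rpow_nonneg (by have := mul_nonneg hδ hr; linarith) _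
      have hneg : F1 κ α b l0 om l - F0 κ α b m0 C l ≤ 0 := by
        rcases le_or_gt l l0 with h2 | h2
        · exact pc l h2
        · exact pb l h2 hl
      exact mul_nonpos_of_nonpos_of_nonneg hneg hG
  · obtain ⟨a, ha, e, he, hae⟩ := (Set.not_subsingleton_iff.1 hsub).exists_lt
    have hbelow : BddBelow S := ⟨l0, fun x hx => hx.1⟩
    have hne : S.Nonempty := ⟨a, ha⟩
    set s1 : ℝ := sInf S with hs1
    have hl0s1 : l0 ≤ s1 := le_csInf hne (fun x hx => hx.1)
    have hs1a : s1 ≤ a := csInf_le hbelow ha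
    have hs1b : 0 < s1 + b := by linarith
    have hr2 : ∃ r2 : ℝ, 0 ≤ r2 ∧ r2 < (s1 + b)⁻¹ ∧ (∀ l ∈ S, r2 ≤ (l + b)⁻¹) ∧
        ∀ l, l0 < l → l ∉ S → (l + b)⁻¹ ≤ r2 ∨ (s1 + b)⁻¹ ≤ (l + b)⁻¹ := by
      by_cases habove : BddAbove S
      · have hs2 : e ≤ sSup S := le_csSup habove he
        refine ⟨(sSup S + b)⁻¹, inv_nonneg.2 (by linarith), ?_, ?_, ?_⟩
        · exact (inv_lt_inv₀ (by linarith) hs1b).2 (by linarith)
        · intro l hl
          have h1 : l ≤ sSup S := le_csSup habove hl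
          have h2 : l0 ≤ l := hl.1
          exact (inv_le_inv₀ (by linarith) (by linarith)).2 (by linarith)
        · intro l hl hlS
          rcases le_or_gt l s1 with h1 | h1
          · right
            exact (inv_le_inv₀ hs1b (by linarith)).2 (by linarith)
          · left
            rcases le_or_gt (sSup S) l with h2 | h2
            · exact (inv_le_inv₀ (by linarith) (by linarith)).2 (by linarith)
            · exfalso
              obtain ⟨x, hx, hxl⟩ := exists_lt_of_csInf_lt hne h1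
              obtain ⟨y, hy, hly⟩ := exists_lt_of_lt_csSup hne h2
              exact hlS (hord.out hx hy ⟨hxl.le, hly.le⟩)
      · refine ⟨0, le_refl _, inv_pos.2 hs1b, ?_, ?_⟩
        · intro l hl
          have h2 : l0 ≤ l := hl.1
          exact inv_nonneg.2 (by linarith)
        · intro l hl hlS
          right
          rcases le_or_gt l s1 with h1 | h1
          · exact (inv_le_inv₀ hs1b (by linarith)).2 (by linarith)
          · exfalso
            obtain ⟨x, hx, hxl⟩ := exists_lt_of_csInf_lt hne h1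
            obtain ⟨y, hy, hly⟩ := not_bddAbove_iff.1 habove l
            exact hlS (hord.out hx hy ⟨hxl.le, hly.le⟩)
    obtain ⟨r2, h0, hlt, hin, hout⟩ := hr2
    obtain ⟨A, B, hAB1, hAB2⟩ := chord (convex_weight hκ hδ) h0 hlt
    refine ⟨A, B, Eventually.of_forall fun l => ?_⟩
    rcases le_or_gt l (-b) with h | h
    · rw [pd l h, zero_mul]
    have hr : 0 ≤ (l + b)⁻¹ := inv_nonneg.2 (by linarith)
    rcases le_or_gt l l0 with h2 | h2
    · refine mul_nonpos_of_nonpos_of_nonneg (pc l h2) ?_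
      have h3 : (s1 + b)⁻¹ ≤ (l + b)⁻¹ := (inv_le_inv₀ hs1b (by linarith)).2 (by linarith)
      have := hAB2 _ hr (Or.inr h3)
      linarith
    · by_cases hlS : l ∈ S
      · refine mul_nonpos_of_nonneg_of_nonpos (pa l h2 hlS) ?_
        have h3 : s1 ≤ l := csInf_le hbelow hlS
        have h4 : (l + b)⁻¹ ≤ (s1 + b)⁻¹ := (inv_le_inv₀ (by linarith) hs1b).2 (by linarith)
        have := hAB1 _ (hin l hlS) h4
        linarith
      · refine mul_nonpos_of_nonpos_of_nonneg (pb l h2 hlS) ?_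
        have := hAB2 _ hr (hout l h2 hlS)
        linarith

/-! ### Integration -/

theorem int_mul {f g : ℝ → ℝ} {a C : ℝ} (hf : IntegrableOn f (Ioi a)) (hg : ContinuousOn g (Ioi a))
    (hC : ∀ l ∈ Ioi a, |g l| ≤ C) : IntegrableOn (fun l => f l * g l) (Ioi a) := by
  refine Integrable.mono' (hf.norm.const_mul C)
    (hf.aestronglyMeasurable.mul (hg.aestronglyMeasurable measurableSet_Ioi)) ?_
  refine (ae_restrict_iff' measurableSet_Ioi).2 (Eventually.of_forall fun l hl => ?_)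
  rw [Real.norm_eq_abs, abs_mul, mul_comm C, Real.norm_eq_abs]
  exact mul_le_mul_of_nonneg_left (hC l hl) (abs_nonneg _)

theorem ind_mul (a : ℝ) (f w : ℝ → ℝ) (l : ℝ) :
    (Ioi a).indicator f l * w l = (Ioi a).indicator (fun l => f l * w l) l := by
  by_cases h : l ∈ Ioi a
  · rw [indicator_of_mem h, indicator_of_mem h]
  · rw [indicator_of_notMem h, indicator_of_notMem h, zero_mul]

theorem pkg0 {f w : ℝ → ℝ} {a C : ℝ} (hf : IntegrableOn f (Ioi a)) (hw : ContinuousOn w (Ioi a))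
    (hC : ∀ l ∈ Ioi a, |w l| ≤ C) : Integrable (fun l => (Ioi a).indicator f l * w l) ∧
    ∫ l, (Ioi a).indicator f l * w l = ∫ l in Ioi a, f l * w l := by
  have e : (fun l => (Ioi a).indicator f l * w l) = (Ioi a).indicator (fun l => f l * w l) :=
    funext (ind_mul a f w)
  rw [e, integral_indicator measurableSet_Ioi]
  exact ⟨(int_mul hf hw hC).integrable_indicator measurableSet_Ioi, rfl⟩

theorem pkg {f : ℝ → ℝ} {a b κ δ : ℝ} (ha : -b < a) (hκ : 0 < κ) (hδ : 0 ≤ δ)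
    (hf : IntegrableOn f (Ioi a)) : Integrable ((Ioi a).indicator f) ∧
    ∫ l, (Ioi a).indicator f l = ∫ l in Ioi a, f l ∧
    Integrable (fun l => (Ioi a).indicator f l * (l + b)⁻¹) ∧
    ∫ l, (Ioi a).indicator f l * (l + b)⁻¹ = ∫ l in Ioi a, f l * (l + b)⁻¹ ∧
    Integrable (fun l => (Ioi a).indicator f l * (1 + δ * (l + b)⁻¹) ^ (-κ)) ∧
    ∫ l, (Ioi a).indicator f l * (1 + δ * (l + b)⁻¹) ^ (-κ) =
      ∫ l in Ioi a, f l * (1 + δ * (l + b)⁻¹) ^ (-κ) := by
  have hr : ContinuousOn (fun l : ℝ => (l + b)⁻¹) (Ioi a) := by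
    intro l hl
    have hl' : a < l := hl
    have hc : ContinuousAt (fun l : ℝ => l + b) l := by fun_prop
    exact (hc.inv₀ (by linarith : (0:ℝ) < l + b).ne').continuousWithinAt
  have h1 : ∀ l ∈ Ioi a, 0 < 1 + δ * (l + b)⁻¹ := by
    intro l hl
    have hl' : a < l := hl
    have : 0 ≤ (l + b)⁻¹ := inv_nonneg.2 (by linarith)
    have := mul_nonneg hδ this
    linarith
  obtain ⟨i1, e1⟩ := pkg0 (w := fun l => (l + b)⁻¹) (C := (a + b)⁻¹) hf hr (by
    intro l hl
    have hl' : a < l := hl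
    show |(l + b)⁻¹| ≤ (a + b)⁻¹
    rw [abs_of_nonneg (inv_nonneg.2 (by linarith : 0 ≤ l + b))]
    exact (inv_le_inv₀ (by linarith) (by linarith)).2 (by linarith))
  obtain ⟨i2, e2⟩ := pkg0 (w := fun l => (1 + δ * (l + b)⁻¹) ^ (-κ)) (C := 1) hf (by
    intro l hl
    exact ((continuousWithinAt_const.add ((hr l hl).const_mul δ)).rpow_const
      (Or.inl (h1 l hl).ne'))) (by
    intro l hl
    have hl' : a < l := hl
    show |(1 + δ * (l + b)⁻¹) ^ (-κ)| ≤ 1
    rw [abs_of_nonneg (Real.rpow_nonneg (h1 l hl).le _)]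
    refine Real.rpow_le_one_of_one_le_of_nonpos ?_ (by linarith)
    have : 0 ≤ (l + b)⁻¹ := inv_nonneg.2 (by linarith)
    have := mul_nonneg hδ this
    linarith)
  exact ⟨hf.integrable_indicator measurableSet_Ioi, integral_indicator measurableSet_Ioi,
    i1, e1, i2, e2⟩

theorem int_sub3 {P Q R : ℝ → ℝ} (h1 : Integrable P) (h2 : Integrable Q) (h3 : Integrable R) :
    ∫ l, (P l - Q l - R l) = (∫ l, P l) - (∫ l, Q l) - ∫ l, R l := by
  have h4 : Integrable (fun l => P l - Q l) := h1.sub h2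
  rw [integral_sub h4 h3, integral_sub h1 h2]

theorem compare {α κ l0 b δ m0 C : ℝ} {om : ℝ → ℝ} (hα : 0 < α) (hκα : κ = 2 * α + 1)
    (hl0 : 0 ≤ l0) (hb : 0 < b) (hδ : 0 ≤ δ) (hm0 : -b < m0) (hC : 0 < C)
    (hconc : ConcaveOn ℝ (Ici l0) om) (hom : ∀ l ∈ Ici l0, 0 ≤ om l)
    (hint : IntegrableOn (fun l => (l + b) ^ (-κ) * om l ^ α) (Ioi l0))
    (hI : ∫ l in Ioi l0, (l + b) ^ (-κ) * om l ^ α =
      ∫ l in Ioi m0, (l + b) ^ (-κ) * (C * (l - m0) ^ α))
    (hI1 : ∫ l in Ioi l0, (l + b) ^ (-κ) * om l ^ α * (l + b)⁻¹ =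
      ∫ l in Ioi m0, (l + b) ^ (-κ) * (C * (l - m0) ^ α) * (l + b)⁻¹) :
    ∫ l in Ioi l0, (l + b) ^ (-κ) * om l ^ α * (1 + δ * (l + b)⁻¹) ^ (-κ) ≤
      ∫ l in Ioi m0, (l + b) ^ (-κ) * (C * (l - m0) ^ α) * (1 + δ * (l + b)⁻¹) ^ (-κ) := by
  have hκ : 0 < κ := by rw [hκα]; linarith
  have hint0 : IntegrableOn (fun l => (l + b) ^ (-κ) * (C * (l - m0) ^ α)) (Ioi m0) := by
    have h := (model_int (α := α) (β := κ) hα.le (by linarith) hm0).const_mul C
    refine h.congr (Eventually.of_forall fun l => ?_)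
    show C * ((l + b) ^ (-κ) * (l - m0) ^ α) = (l + b) ^ (-κ) * (C * (l - m0) ^ α)
    ring
  obtain ⟨A, B, hAB⟩ := crossing hα hκ hl0 hb hδ hm0 hC hconc hom
  obtain ⟨a1, a2, a3, a4, a5, a6⟩ : Integrable (F1 κ α b l0 om) volume ∧
    ∫ l, F1 κ α b l0 om l = ∫ l in Ioi l0, (l + b) ^ (-κ) * om l ^ α ∧
    Integrable (fun l => F1 κ α b l0 om l * (l + b)⁻¹) volume ∧
    ∫ l, F1 κ α b l0 om l * (l + b)⁻¹ = ∫ l in Ioi l0, (l + b) ^ (-κ) * om l ^ α * (l + b)⁻¹ ∧
    Integrable (fun l => F1 κ α b l0 om l * (1 + δ * (l + b)⁻¹) ^ (-κ)) volume ∧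
    ∫ l, F1 κ α b l0 om l * (1 + δ * (l + b)⁻¹) ^ (-κ) =
      ∫ l in Ioi l0, (l + b) ^ (-κ) * om l ^ α * (1 + δ * (l + b)⁻¹) ^ (-κ) :=
    pkg (b := b) (by linarith : -b < l0) hκ hδ hint
  obtain ⟨c1, c2, c3, c4, c5, c6⟩ : Integrable (F0 κ α b m0 C) volume ∧
    ∫ l, F0 κ α b m0 C l = ∫ l in Ioi m0, (l + b) ^ (-κ) * (C * (l - m0) ^ α) ∧
    Integrable (fun l => F0 κ α b m0 C l * (l + b)⁻¹) volume ∧
    ∫ l, F0 κ α b m0 C l * (l + b)⁻¹ =
      ∫ l in Ioi m0, (l + b) ^ (-κ) * (C * (l - m0) ^ α) * (l + b)⁻¹ ∧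
    Integrable (fun l => F0 κ α b m0 C l * (1 + δ * (l + b)⁻¹) ^ (-κ)) volume ∧
    ∫ l, F0 κ α b m0 C l * (1 + δ * (l + b)⁻¹) ^ (-κ) =
      ∫ l in Ioi m0, (l + b) ^ (-κ) * (C * (l - m0) ^ α) * (1 + δ * (l + b)⁻¹) ^ (-κ) :=
    pkg (b := b) hm0 hκ hδ hint0
  have e : (fun l : ℝ => (F1 κ α b l0 om l - F0 κ α b m0 C l) *
        ((1 + δ * (l + b)⁻¹) ^ (-κ) - (A + B * (l + b)⁻¹))) =
      fun l => ((F1 κ α b l0 om l * (1 + δ * (l + b)⁻¹) ^ (-κ) -
        F0 κ α b m0 C l * (1 + δ * (l + b)⁻¹) ^ (-κ)) -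
        A * (F1 κ α b l0 om l - F0 κ α b m0 C l)) -
        B * (F1 κ α b l0 om l * (l + b)⁻¹ - F0 κ α b m0 C l * (l + b)⁻¹) := by
    funext l
    ring
  have hle : ∫ l : ℝ, (F1 κ α b l0 om l - F0 κ α b m0 C l) *
        ((1 + δ * (l + b)⁻¹) ^ (-κ) - (A + B * (l + b)⁻¹)) ≤ 0 :=
    integral_nonpos_of_ae hAB
  have j1 : Integrable (fun l => F1 κ α b l0 om l * (1 + δ * (l + b)⁻¹) ^ (-κ) -
      F0 κ α b m0 C l * (1 + δ * (l + b)⁻¹) ^ (-κ)) := a5.sub c5
  have j2 : Integrable (fun l => A * (F1 κ α b l0 om l - F0 κ α b m0 C l)) :=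
    (a1.sub c1).const_mul A
  have j3 : Integrable (fun l => B * (F1 κ α b l0 om l * (l + b)⁻¹ -
      F0 κ α b m0 C l * (l + b)⁻¹)) := (a3.sub c3).const_mul B
  have v1 : ∫ l, (F1 κ α b l0 om l * (1 + δ * (l + b)⁻¹) ^ (-κ) -
      F0 κ α b m0 C l * (1 + δ * (l + b)⁻¹) ^ (-κ)) = _ - _ := integral_sub a5 c5
  have v2 : ∫ l, (F1 κ α b l0 om l - F0 κ α b m0 C l) = _ - _ := integral_sub a1 c1
  have v3 : ∫ l, (F1 κ α b l0 om l * (l + b)⁻¹ - F0 κ α b m0 C l * (l + b)⁻¹) = _ - _ :=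
    integral_sub a3 c3
  have w2 : ∫ l, (F1 κ α b l0 om l - F0 κ α b m0 C l) = 0 := by
    rw [v2, a2, c2, hI, sub_self]
  have w3 : ∫ l, (F1 κ α b l0 om l * (l + b)⁻¹ - F0 κ α b m0 C l * (l + b)⁻¹) = 0 := by
    rw [v3, a4, c4, hI1, sub_self]
  rw [e, int_sub3 j1 j2 j3, integral_const_mul, integral_const_mul, w2, w3, v1, a6, c6] at hle
  linarith

theorem K5 : H590PL.S_K5 := by
  intro p l0 b b' om hp1 hp2 hl0 hb hbb hconc hom hcont hint hpos
  have hp0 : 0 < p := by linarith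
  set κ : ℝ := 2 / p + 1 with hκdef
  set α : ℝ := 1 / p with hαdef
  have hα : 0 < α := by rw [hαdef]; positivity
  have hκα : κ = 2 * α + 1 := by rw [hκdef, hαdef]; ring
  have hκ : 0 < κ := by rw [hκα]; linarith
  have hpα : p * α = 1 := by rw [hαdef]; field_simp
  have e2 : 2 / p + 2 = κ + 1 := by rw [hκdef]; ring
  rw [e2]
  set I : ℝ := ∫ l in Ioi l0, (l + b) ^ (-κ) * om l ^ α with hI
  set δ : ℝ := b' - b with hδdef
  have hδ : 0 ≤ δ := by rw [hδdef]; linarith
  -- pointwise identities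
  have q1 : ∀ l : ℝ, 0 < l + b → (l + b) ^ (-(κ + 1)) = (l + b) ^ (-κ) * (l + b)⁻¹ := by
    intro l hl
    rw [← Real.rpow_neg_one (l + b), ← Real.rpow_add hl]
    congr 1
    ring
  have q2 : ∀ l : ℝ, 0 < l + b →
      (l + b) ^ (-κ) * (1 + δ * (l + b)⁻¹) ^ (-κ) = (l + b') ^ (-κ) := by
    intro l hl
    have h1 : 0 ≤ δ * (l + b)⁻¹ := mul_nonneg hδ (inv_nonneg.2 hl.le)
    rw [← Real.mul_rpow hl.le (by linarith)]
    congr 1
    rw [hδdef]
    field_simp
    ring
  have v1 : ∫ l in Ioi l0, (l + b) ^ (-(κ + 1)) * om l ^ α =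
      ∫ l in Ioi l0, (l + b) ^ (-κ) * om l ^ α * (l + b)⁻¹ := by
    refine setIntegral_congr_fun measurableSet_Ioi (fun l hl => ?_)
    have hl' : l0 < l := hl
    show (l + b) ^ (-(κ + 1)) * om l ^ α = (l + b) ^ (-κ) * om l ^ α * (l + b)⁻¹
    rw [q1 l (by linarith)]
    ring
  have v2 : ∫ l in Ioi l0, (l + b') ^ (-κ) * om l ^ α =
      ∫ l in Ioi l0, (l + b) ^ (-κ) * om l ^ α * (1 + δ * (l + b)⁻¹) ^ (-κ) := by
    refine setIntegral_congr_fun measurableSet_Ioi (fun l hl => ?_)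
    have hl' : l0 < l := hl
    show (l + b') ^ (-κ) * om l ^ α = (l + b) ^ (-κ) * om l ^ α * (1 + δ * (l + b)⁻¹) ^ (-κ)
    rw [← q2 l (by linarith)]
    ring
  rw [v1, v2]
  set J : ℝ := ∫ l in Ioi l0, (l + b) ^ (-κ) * om l ^ α * (l + b)⁻¹ with hJ
  obtain ⟨a1, a2, a3, a4, -, -⟩ := pkg (b := b) (by linarith : -b < l0) hκ hδ hint
  have hnn : ∀ l ∈ Ioi l0, 0 ≤ (l + b) ^ (-κ) * om l ^ α := by
    intro l hl
    have hl' : l0 < l := hl
    exact mul_nonneg (Real.rpow_nonneg (by linarith) _) (Real.rpow_nonneg (hom l hl'.le) _)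
  have hJpos : 0 < J := by
    have h1 : 0 ≤ᵐ[volume.restrict (Ioi l0)]
        fun l : ℝ => (l + b) ^ (-κ) * om l ^ α * (l + b)⁻¹ :=
      (ae_restrict_iff' measurableSet_Ioi).2 (Eventually.of_forall fun l hl => by
        have hl' : l0 < l := hl
        exact mul_nonneg (hnn l hl) (inv_nonneg.2 (by linarith)))
    have h2 : 0 ≤ J := integral_nonneg_of_ae h1
    rcases eq_or_lt_of_le h2 with h3 | h3
    · exfalso
      have hi : IntegrableOn (fun l : ℝ => (l + b) ^ (-κ) * om l ^ α * (l + b)⁻¹) (Ioi l0) := by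
        have h5 := a3.integrableOn (s := Ioi l0)
        refine h5.congr ((ae_restrict_iff' measurableSet_Ioi).2
          (Eventually.of_forall fun l hl => ?_))
        show (Ioi l0).indicator (fun l => (l + b) ^ (-κ) * om l ^ α) l * (l + b)⁻¹ =
          (l + b) ^ (-κ) * om l ^ α * (l + b)⁻¹
        rw [indicator_of_mem hl]
      have h4 := (integral_eq_zero_iff_of_nonneg_ae h1 hi).1 h3.symm
      have h5 : I = 0 := by
        rw [hI]
        refine integral_eq_zero_of_ae ?_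
        filter_upwards [h4, ae_restrict_mem measurableSet_Ioi] with l hl hl2
        have hl' : l0 < l := hl2
        have h6 : (l + b) ^ (-κ) * om l ^ α * (l + b)⁻¹ = 0 := hl
        have h7 : (l + b)⁻¹ ≠ 0 := inv_ne_zero (by linarith : (0:ℝ) < l + b).ne'
        exact (mul_eq_zero.1 h6).resolve_right h7
      linarith
    · exact h3
  -- the model
  set u : ℝ := α * I / (κ * J) with hu
  have hu0 : 0 < u := by positivity
  set m0 : ℝ := u - b with hm0
  have hm0b : -b < m0 := by rw [hm0]; linarith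
  have hbm : b + m0 = u := by rw [hm0]; ring
  set M : ℝ := ∫ l in Ioi m0, (l + b) ^ (-κ) * (l - m0) ^ α with hM
  have hMpos : 0 < M := model_pos hα.le (by linarith) hm0b
  have hftc := model_ftc (b := b) (m0 := m0) hα hκα hm0b
  rw [← hM, hbm] at hftc
  have hCpos : 0 < I / M := by positivity
  have w0 : ∫ l in Ioi m0, (l + b) ^ (-κ) * (I / M * (l - m0) ^ α) = I := by
    have h1 : ∫ l in Ioi m0, (l + b) ^ (-κ) * (I / M * (l - m0) ^ α) =
        ∫ l in Ioi m0, I / M * ((l + b) ^ (-κ) * (l - m0) ^ α) :=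
      integral_congr_ae (Eventually.of_forall fun l => by
        show (l + b) ^ (-κ) * (I / M * (l - m0) ^ α) = I / M * ((l + b) ^ (-κ) * (l - m0) ^ α)
        ring)
    rw [h1, integral_const_mul, ← hM]
    field_simp
  have w1 : ∫ l in Ioi m0, (l + b) ^ (-κ) * (I / M * (l - m0) ^ α) * (l + b)⁻¹ = J := by
    have h1 : ∫ l in Ioi m0, (l + b) ^ (-κ) * (I / M * (l - m0) ^ α) * (l + b)⁻¹ =
        ∫ l in Ioi m0, I / M * ((l + b) ^ (-(κ + 1)) * (l - m0) ^ α) := by
      refine setIntegral_congr_fun measurableSet_Ioi (fun l hl => ?_)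
      have hl' : m0 < l := hl
      show (l + b) ^ (-κ) * (I / M * (l - m0) ^ α) * (l + b)⁻¹ =
        I / M * ((l + b) ^ (-(κ + 1)) * (l - m0) ^ α)
      rw [q1 l (by linarith)]
      ring
    rw [h1, integral_const_mul]
    set M1 : ℝ := ∫ l in Ioi m0, (l + b) ^ (-(κ + 1)) * (l - m0) ^ α
    have h2 : κ * u * M1 = α * M := hftc
    rw [hu] at h2
    have h3 : I * M1 = J * M := by
      field_simp at h2
      linarith
    field_simp
    linarith
  have w2 : ∫ l in Ioi m0, (l + b) ^ (-κ) * (I / M * (l - m0) ^ α) * (1 + δ * (l + b)⁻¹) ^ (-κ) =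
      I * ((b' + m0) / (b + m0)) ^ (-α) := by
    have h1 : ∫ l in Ioi m0, (l + b) ^ (-κ) * (I / M * (l - m0) ^ α) *
        (1 + δ * (l + b)⁻¹) ^ (-κ) =
        ∫ l in Ioi m0, I / M * ((l + b') ^ (-κ) * (l - m0) ^ α) := by
      refine setIntegral_congr_fun measurableSet_Ioi (fun l hl => ?_)
      have hl' : m0 < l := hl
      show (l + b) ^ (-κ) * (I / M * (l - m0) ^ α) * (1 + δ * (l + b)⁻¹) ^ (-κ) =
        I / M * ((l + b') ^ (-κ) * (l - m0) ^ α)
      rw [← q2 l (by linarith)]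
      ring
    rw [h1, integral_const_mul, model_scale0 (b := b') hκα (by linarith)]
    have h2 : M = (b + m0) ^ (-α) * ∫ t in Ioi (0 : ℝ), (t + 1) ^ (-κ) * t ^ α :=
      model_scale0 (b := b) hκα hm0b
    set B0 : ℝ := ∫ t in Ioi (0 : ℝ), (t + 1) ^ (-κ) * t ^ α
    have hB0 : B0 ≠ 0 := by
      intro h
      rw [h, mul_zero] at h2
      linarith
    have hpb : 0 < (b + m0) ^ (-α) := Real.rpow_pos_of_pos (by linarith) _
    rw [Real.div_rpow (by linarith) (by linarith), h2]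
    field_simp
  have hfin := compare (δ := δ) hα hκα hl0 hb hδ hm0b hCpos hconc hom hint (by rw [w0])
    (by rw [w1])
  rw [w2] at hfin
  refine hfin.trans (le_of_eq ?_)
  congr 2
  rw [hbm]
  have hb' : b' + m0 = u + δ := by rw [hm0, hδdef]; ring
  rw [hb', add_div, div_self hu0.ne', hu]
  have hαp : α = 1 / p := hαdef
  congr 1
  rw [hαp]
  field_simp

end H801PL
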